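import Mathlib

/-!
Every infinite connected locally finite vertex-transitive graph of non-linear growth admits, for
every `n`, a finite set of sites with at least `n` infinite Voronoi cells.
-/

namespace Pool.Agent.Results.MP_2b3d15_co.InfiniteCells

open SimpleGraph

variable {V : Type*}

/-- `G` is vertex-transitive. -/
def VertexTransitive (G : SimpleGraph V) : Prop := ∀ u v : V, ∃ φ : G ≃g G, φ u = v

/-- The ball of radius `r` about `v`. -/
def ball (G : SimpleGraph V) (v : V) (r : ℕ) : Set V := {u | G.dist u v ≤ r}

/-- `|B(v, r)|` is bounded by a linear function of `r`, for every `v`. -/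
def LinearGrowth (G : SimpleGraph V) : Prop :=
  ∀ v : V, ∃ a b : ℕ, ∀ r : ℕ, (ball G v r).ncard ≤ a * r + b

/-- The Voronoi cell of `v` with respect to the sites `T`; ties are not broken. -/
def cell (G : SimpleGraph V) (T : Finset V) (v : V) : Set V :=
  {u | ∀ v' ∈ T, G.dist u v ≤ G.dist u v'}

open Classical in
/-- The number of infinite Voronoi cells. -/
noncomputable def numInfinite (G : SimpleGraph V) (T : Finset V) : ℕ :=
  (T.filter (fun v => (cell G T v).Infinite)).card

/-- The largest number of infinite Voronoi cells, in `ℕ ∪ {∞}`. -/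
noncomputable def maxInfinite (G : SimpleGraph V) : ℕ∞ :=
  ⨆ (T : Finset V) (_ : T.Nonempty), (numInfinite G T : ℕ∞)

theorem ball_finite (G : SimpleGraph V) (hG : G.Connected) [G.LocallyFinite] (v : V) (r : ℕ) :
    (ball G v r).Finite := by
  classical
  induction r with
  | zero =>
    refine (Set.finite_singleton v).subset ?_
    intro u hu
    simp only [ball, Set.mem_ofPred_eq, Nat.le_zero] at hu
    exact (hG.dist_eq_zero_iff).1 hu
  | succ r ih =>
    have h1 : ball G v (r + 1) ⊆ ball G v r ∪ ⋃ w ∈ ball G v r, (G.neighborSet w) := by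
      intro u hu
      simp only [ball, Set.mem_ofPred_eq] at hu
      by_cases h : G.dist u v ≤ r
      · exact Or.inl h
      · right
        have h2 : G.dist u v = r + 1 := by omega
        obtain ⟨p, hp⟩ := hG.exists_walk_length_eq_dist u v
        cases p with
        | nil => rw [dist_self] at h2; omega
        | @cons _ w _ hadj q =>
          simp only [Walk.length_cons] at hp
          refine Set.mem_iUnion₂.2 ⟨w, ?_, hadj.symm⟩
          simp only [ball, Set.mem_ofPred_eq]
          have := dist_le q
          omega
    refine (ih.union (ih.biUnion ?_)).subset h1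
    intro w _
    exact Set.toFinite _

theorem key (G : SimpleGraph V) (hG : G.Connected) [G.LocallyFinite] [Infinite V] (o : V) (N r : ℕ)
    (h : N * (2 * r + 1) < (ball G o r).ncard) :
    ∃ T : Finset V, T.card = N + 1 ∧ numInfinite G T = N + 1 := by
  classical
  have hfin := ball_finite G hG o r
  let B : Finset V := hfin.toFinset
  have hB : B.card = (ball G o r).ncard := (Set.ncard_eq_toFinset_card _ hfin).symm
  -- for each `u` an equidistant subset of size `N + 1`
  have h1 : ∀ u : V, ∃ T ∈ B.powersetCard (N + 1), ∀ s ∈ T, ∀ t ∈ T, G.dist u s = G.dist u t := by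
    intro u
    have hmaps : ∀ s ∈ B, G.dist u s + r - G.dist u o ∈ Finset.range (2 * r + 1) := by
      intro s hs
      have hs' : G.dist s o ≤ r := by
        have := (Set.Finite.mem_toFinset hfin).1 hs
        simpa [ball] using this
      have h2 : G.dist u s ≤ G.dist u o + G.dist o s := hG.dist_triangle
      rw [dist_comm (u := o)] at h2
      rw [Finset.mem_range]
      omega
    have hcard : (Finset.range (2 * r + 1)).card * N < B.card := by
      rw [Finset.card_range, hB]; linarith
    obtain ⟨k, _, hk⟩ := Finset.exists_lt_card_fiber_of_mul_lt_card_of_maps_to hmaps hcard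
    obtain ⟨T, hT1, hT2⟩ := Finset.exists_subset_card_eq (Nat.succ_le_of_lt hk)
    refine ⟨T, Finset.mem_powersetCard.2 ⟨hT1.trans (Finset.filter_subset _ _), hT2⟩, ?_⟩
    intro s hs t ht
    have hs1 := Finset.mem_filter.1 (hT1 hs)
    have ht1 := Finset.mem_filter.1 (hT1 ht)
    have hs' : G.dist s o ≤ r := by
      have := (Set.Finite.mem_toFinset hfin).1 hs1.1
      simpa [ball] using this
    have ht' : G.dist t o ≤ r := by
      have := (Set.Finite.mem_toFinset hfin).1 ht1.1
      simpa [ball] using this
    have h2 : G.dist u o ≤ G.dist u s + G.dist s o := hG.dist_triangle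
    have h3 : G.dist u o ≤ G.dist u t + G.dist t o := hG.dist_triangle
    have := hs1.2
    have := ht1.2
    omega
  choose F hF1 hF2 using h1
  let F' : V → (B.powersetCard (N + 1)) := fun u => ⟨F u, hF1 u⟩
  obtain ⟨T, hT⟩ := Finite.exists_infinite_fiber F'
  rw [Set.infinite_coe_iff] at hT
  refine ⟨T.1, (Finset.mem_powersetCard.1 T.2).2, ?_⟩
  have hcell : ∀ v ∈ T.1, (cell G T.1 v).Infinite := by
    intro v hv
    refine hT.mono ?_
    intro u hu
    have hu' : F u = T.1 := by
      have : F' u = T := hu
      rw [← this]
    intro v' hv'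
    exact (hF2 u v (hu'.symm ▸ hv) v' (hu'.symm ▸ hv')).le
  unfold numInfinite
  rw [Finset.filter_true_of_mem hcell]
  exact (Finset.mem_powersetCard.1 T.2).2

/-- **Main theorem.** For every infinite, connected, locally finite, vertex-transitive graph of
non-linear growth the number of infinite Voronoi cells is unbounded: `M(G) = ∞`. -/
theorem result {V : Type*} [Infinite V] (G : SimpleGraph V) (hG : G.Connected) [G.LocallyFinite]
    (_hvt : VertexTransitive G) (hgrowth : ¬ LinearGrowth G) :
    maxInfinite G = ⊤ := by
  classical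
  have h2 : ∀ n : ℕ, ∃ T : Finset V, T.Nonempty ∧ n ≤ numInfinite G T := by
    intro n
    unfold LinearGrowth at hgrowth
    push Not at hgrowth
    obtain ⟨o, ho⟩ := hgrowth
    obtain ⟨r, hr⟩ := ho (2 * n) n
    obtain ⟨T, hT1, hT2⟩ := key G hG o n r (by linarith)
    refine ⟨T, ?_, by omega⟩
    rw [← Finset.card_pos]; omega
  rw [eq_top_iff]
  refine ENat.forall_natCast_le_iff_le.1 ?_ |>.trans le_rfl
  intro n _
  obtain ⟨T, hT1, hT2⟩ := h2 n
  refine le_trans ?_ (le_iSup₂_of_le T hT1 le_rfl)
  exact_mod_cast hT2

end Pool.Agent.Results.MP_2b3d15_co.InfiniteCells
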